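import Pool.Agent.W516.K3.Defs

set_option autoImplicit false
set_option linter.unusedSectionVars false

namespace Pool.Agent.W358.DK

open Module Pool.Agent.W516.K3 Matrix Set

section mat

variable {m : Type} [Fintype m] [DecidableEq m]

/-- the quadratic form -/
def q (M : Matrix m m ℝ) (v : m → ℝ) : ℝ := v ⬝ᵥ M *ᵥ v

theorem q_add (M N : Matrix m m ℝ) (v : m → ℝ) : q (M + N) v = q M v + q N v := by
  unfold q; rw [add_mulVec, dotProduct_add]

theorem q_sub (M N : Matrix m m ℝ) (v : m → ℝ) : q (M - N) v = q M v - q N v := by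
  unfold q; rw [sub_mulVec, dotProduct_sub]

theorem q_smul (c : ℝ) (M : Matrix m m ℝ) (v : m → ℝ) : q (c • M) v = c * q M v := by
  unfold q; rw [smul_mulVec, dotProduct_smul, smul_eq_mul]

theorem q_one (v : m → ℝ) : q (1 : Matrix m m ℝ) v = v ⬝ᵥ v := by
  unfold q; rw [one_mulVec]

theorem dot_nonneg (v : m → ℝ) : 0 ≤ v ⬝ᵥ v :=
  Finset.sum_nonneg fun _ _ => mul_self_nonneg _

theorem q_eq (M : Matrix m m ℝ) (v : m → ℝ) : q M v = ∑ i, ∑ j, v i * (M i j * v j) := by
  unfold q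
  simp only [dotProduct, mulVec, Finset.mul_sum]

theorem q_single (M : Matrix m m ℝ) (i : m) : q M (Pi.single i 1) = M i i := by
  unfold q
  simp

/-- the conjugation -/
theorem q_conj (X M : Matrix m m ℝ) (v : m → ℝ) : q (Xᵀ * M * X) v = q M (X *ᵥ v) := by
  unfold q
  rw [← mulVec_mulVec, ← mulVec_mulVec, dotProduct_mulVec, vecMul_transpose]

theorem q_sum {ι : Type} [Fintype ι] (M : ι → Matrix m m ℝ) (v : m → ℝ) :
    q (∑ i, M i) v = ∑ i, q (M i) v := by
  unfold q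
  rw [sum_mulVec, dotProduct_sum]

theorem abs_q_le (M : Matrix m m ℝ) (v : m → ℝ) : |q M v| ≤ (∑ i, ∑ j, |M i j|) * (v ⬝ᵥ v) := by
  rw [q_eq, Finset.sum_mul]
  refine (Finset.abs_sum_le_sum_abs _ _).trans (Finset.sum_le_sum fun i _ => ?_)
  rw [Finset.sum_mul]
  refine (Finset.abs_sum_le_sum_abs _ _).trans (Finset.sum_le_sum fun j _ => ?_)
  have h1 : ∀ i, v i ^ 2 ≤ v ⬝ᵥ v := by
    intro i
    have := Finset.single_le_sum (f := fun i => v i * v i) (fun _ _ => mul_self_nonneg _)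
      (Finset.mem_univ i)
    rw [pow_two]
    exact this
  have h2 : |v i * v j| ≤ v ⬝ᵥ v := by
    rw [abs_mul]
    have h3 := h1 i
    have h4 := h1 j
    rw [← sq_abs] at h3 h4
    nlinarith [sq_nonneg (|v i| - |v j|)]
  have h5 : v i * (M i j * v j) = M i j * (v i * v j) := by ring
  rw [h5, abs_mul]
  exact mul_le_mul_of_nonneg_left h2 (abs_nonneg _)

/-- positive semidefinite symmetric matrices -/
def Psd (M : Matrix m m ℝ) : Prop := Mᵀ = M ∧ ∀ v, 0 ≤ q M v

theorem Psd.diag {M : Matrix m m ℝ} (h : Psd M) (i : m) : 0 ≤ M i i := by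
  have := h.2 (Pi.single i 1)
  rwa [q_single] at this

theorem Psd.diag_le {M : Matrix m m ℝ} (h : Psd M) (i : m) : M i i ≤ M.trace :=
  Finset.single_le_sum (f := fun i => M i i) (fun i _ => h.diag i) (Finset.mem_univ i)

theorem Psd.trace {M : Matrix m m ℝ} (h : Psd M) : 0 ≤ M.trace :=
  Finset.sum_nonneg fun i _ => h.diag i

theorem Psd.entry {M : Matrix m m ℝ} (h : Psd M) (i j : m) : |M i j| ≤ M.trace := by
  have hs : M j i = M i j := by
    have := congrFun (congrFun h.1 i) j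
    rwa [transpose_apply] at this
  have h1 := h.2 (Pi.single i 1 + Pi.single j 1)
  have h2 := h.2 (Pi.single i 1 - Pi.single j 1)
  unfold q at h1 h2
  simp only [mulVec_add, mulVec_sub, dotProduct_add, dotProduct_sub, add_dotProduct,
    sub_dotProduct, mulVec_single, single_dotProduct, MulOpposite.op_one, one_smul, one_mul,
    col_apply] at h1 h2
  rw [hs] at h1 h2
  have h3 := h.diag_le i
  have h4 := h.diag_le j
  rw [abs_le]
  constructor <;> linarith

theorem Psd.eq_zero {M : Matrix m m ℝ} (h : Psd M) (ht : M.trace = 0) : M = 0 := by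
  ext i j
  have := h.entry i j
  rw [ht] at this
  simpa using this

theorem Psd.q_le {M : Matrix m m ℝ} (h : Psd M) (v : m → ℝ) :
    q M v ≤ (Fintype.card m : ℝ) ^ 2 * M.trace * (v ⬝ᵥ v) := by
  refine (le_abs_self _).trans ((abs_q_le M v).trans ?_)
  refine mul_le_mul_of_nonneg_right ?_ (dot_nonneg v)
  calc ∑ i, ∑ j, |M i j| ≤ ∑ i : m, ∑ j : m, M.trace :=
        Finset.sum_le_sum fun i _ => Finset.sum_le_sum fun j _ => h.entry i j
    _ = _ := by
        simp only [Finset.sum_const, Finset.card_univ, nsmul_eq_mul]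
        ring

theorem Psd.add {M N : Matrix m m ℝ} (h : Psd M) (h' : Psd N) : Psd (M + N) :=
  ⟨by rw [transpose_add, h.1, h'.1], fun v => by
    rw [q_add]
    exact add_nonneg (h.2 v) (h'.2 v)⟩

theorem Psd.smul {M : Matrix m m ℝ} (h : Psd M) {c : ℝ} (hc : 0 ≤ c) : Psd (c • M) :=
  ⟨by rw [transpose_smul, h.1], fun v => by
    rw [q_smul]
    exact mul_nonneg hc (h.2 v)⟩

theorem Psd.one : Psd (1 : Matrix m m ℝ) :=
  ⟨transpose_one, fun v => by rw [q_one]; exact dot_nonneg v⟩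

variable {ι : Type} [Fintype ι] (X : ι → Matrix m m ℝ)

/-- the operator -/
def Ph (M : Matrix m m ℝ) : Matrix m m ℝ := ∑ i, (X i)ᵀ * M * X i

/-- the perturbed operator -/
def Pe (ε : ℝ) (M : Matrix m m ℝ) : Matrix m m ℝ := Ph X M + (ε * M.trace) • 1

theorem q_Ph (M : Matrix m m ℝ) (v : m → ℝ) : q (Ph X M) v = ∑ i, q M (X i *ᵥ v) := by
  unfold Ph
  rw [q_sum]
  simp only [q_conj]

theorem q_Pe (ε : ℝ) (M : Matrix m m ℝ) (v : m → ℝ) :
    q (Pe X ε M) v = ∑ i, q M (X i *ᵥ v) + ε * M.trace * (v ⬝ᵥ v) := by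
  unfold Pe
  rw [q_add, q_Ph, q_smul, q_one]

theorem Psd.Ph {M : Matrix m m ℝ} (h : Psd M) : Psd (Ph X M) := by
  constructor
  · unfold DK.Ph
    rw [transpose_sum]
    refine Finset.sum_congr rfl fun i _ => ?_
    rw [transpose_mul, transpose_mul, transpose_transpose, h.1, Matrix.mul_assoc]
  · intro v
    rw [q_Ph]
    exact Finset.sum_nonneg fun i _ => h.2 _

theorem Psd.Pe {ε : ℝ} (hε : 0 ≤ ε) {M : Matrix m m ℝ} (h : Psd M) : Psd (Pe X ε M) :=
  (h.Ph X).add (Psd.one.smul (mul_nonneg hε h.trace))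

theorem Pe_sub (ε : ℝ) (M N : Matrix m m ℝ) : Pe X ε (M - N) = Pe X ε M - Pe X ε N := by
  unfold Pe Ph
  rw [trace_sub]
  simp only [Matrix.sub_mul, Finset.sum_sub_distrib, mul_sub, sub_smul]
  abel

theorem Pe_smul (ε c : ℝ) (M : Matrix m m ℝ) : Pe X ε (c • M) = c • Pe X ε M := by
  unfold Pe Ph
  rw [trace_smul]
  simp only [Matrix.mul_smul, Matrix.smul_mul, ← Finset.smul_sum, smul_add, smul_smul, smul_eq_mul]
  congr 2
  ring

/-- the compact convex set -/
def Cs (m : Type) [Fintype m] [DecidableEq m] : Set (Matrix m m ℝ) := {M | Psd M ∧ M.trace = 1}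

theorem cont_q (v : m → ℝ) : Continuous fun M : Matrix m m ℝ => q M v := by
  unfold q
  fun_prop

theorem cont_Ph : Continuous (Ph X) := by
  unfold Ph
  fun_prop

theorem cont_tr : Continuous fun M : Matrix m m ℝ => M.trace := by
  unfold Matrix.trace
  fun_prop

theorem compact_Cs : IsCompact (Cs m) := by
  have hcl : IsClosed (Cs m) := by
    have h1 : Cs m = {M | Mᵀ = M} ∩ (⋂ v, {M | 0 ≤ q M v}) ∩ {M | M.trace = 1} := by
      ext M
      simp only [Cs, Psd, mem_inter_iff, mem_iInter, Set.mem_ofPred_eq]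
    rw [h1]
    refine ((isClosed_eq continuous_id.matrix_transpose continuous_id).inter
      (isClosed_iInter fun v => isClosed_le continuous_const (cont_q v))).inter
      (isClosed_eq cont_tr continuous_const)
  have hsub : Cs m ⊆ Set.pi univ (fun _ : m => Set.pi univ fun _ : m => Icc (-1 : ℝ) 1) := by
    rintro M ⟨h1, h2⟩ i _ j _
    have := h1.entry i j
    rw [h2] at this
    exact abs_le.1 this
  exact (isCompact_univ_pi fun _ => isCompact_univ_pi fun _ => isCompact_Icc).of_isClosed_subset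
    hcl hsub

theorem tr_bound : ∃ Bd : ℝ, ∀ M ∈ Cs m, (Ph X M).trace ≤ Bd := by
  obtain ⟨Bd, hBd⟩ := (compact_Cs (m := m)).bddAbove_image
    ((cont_tr.comp (cont_Ph X)).continuousOn)
  exact ⟨Bd, fun M hM => hBd ⟨M, hM, rfl⟩⟩

theorem tr_Pe (ε : ℝ) (M : Matrix m m ℝ) :
    (Pe X ε M).trace = (Ph X M).trace + ε * M.trace * Fintype.card m := by
  unfold Pe
  rw [trace_add, trace_smul, trace_one, smul_eq_mul]

theorem le_of_q {θ : ℝ} {M N : Matrix m m ℝ} (h : ∀ v, θ * q M v ≤ q N v) :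
    θ * M.trace ≤ N.trace := by
  unfold Matrix.trace
  rw [Finset.mul_sum]
  refine Finset.sum_le_sum fun i _ => ?_
  have := h (Pi.single i 1)
  rwa [q_single, q_single] at this

/-- Perron-Frobenius for the perturbed operator -/
theorem perron [Nonempty m] {ε : ℝ} (hε : 0 < ε) : ∃ θ : ℝ, 0 ≤ θ ∧ ∃ M ∈ Cs m,
    Pe X ε M = θ • M := by
  obtain ⟨Bd, hBd⟩ := tr_bound X
  have hN : (0 : ℝ) < Fintype.card m := by exact_mod_cast Fintype.card_pos
  set B' := Bd + ε * Fintype.card m with hB'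
  have hθB : ∀ (θ : ℝ) (M : Matrix m m ℝ), M ∈ Cs m → (∀ v, θ * q M v ≤ q (Pe X ε M) v) →
      θ ≤ B' := by
    intro θ M hM h
    have h1 := le_of_q h
    rw [tr_Pe, hM.2, mul_one, mul_one] at h1
    have := hBd M hM
    rw [hB']
    linarith
  set P : Set (ℝ × Matrix m m ℝ) :=
    (Icc 0 B' ×ˢ Cs m) ∩ {p | ∀ v, p.1 * q p.2 v ≤ q (Pe X ε p.2) v} with hP
  have hPc : IsCompact P := by
    refine (isCompact_Icc.prod compact_Cs).inter_right ?_
    have : {p : ℝ × Matrix m m ℝ | ∀ v, p.1 * q p.2 v ≤ q (Pe X ε p.2) v} =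
        ⋂ v, {p | p.1 * q p.2 v ≤ q (Pe X ε p.2) v} := by
      ext p
      simp
    rw [this]
    refine isClosed_iInter fun v => isClosed_le ?_ ?_
    · exact continuous_fst.mul ((cont_q v).comp continuous_snd)
    · refine (cont_q v).comp ?_
      unfold Pe
      exact ((cont_Ph X).comp continuous_snd).add
        ((continuous_const.mul (cont_tr.comp continuous_snd)).smul continuous_const)
  have hne : P.Nonempty := by
    have hM : ((Fintype.card m : ℝ)⁻¹ • (1 : Matrix m m ℝ)) ∈ Cs m := by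
      refine ⟨Psd.one.smul (by positivity), ?_⟩
      rw [trace_smul, trace_one, smul_eq_mul, inv_mul_cancel₀ hN.ne']
    have hq : ∀ v, (0 : ℝ) * q ((Fintype.card m : ℝ)⁻¹ • (1 : Matrix m m ℝ)) v ≤
        q (Pe X ε ((Fintype.card m : ℝ)⁻¹ • (1 : Matrix m m ℝ))) v := by
      intro v
      rw [zero_mul]
      exact (hM.1.Pe X hε.le).2 v
    exact ⟨(0, _), ⟨⟨⟨le_rfl, hθB 0 _ hM hq⟩, hM⟩, hq⟩⟩
  obtain ⟨p, hpP, hmax⟩ := hPc.exists_isMaxOn hne continuous_fst.continuousOn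
  obtain ⟨⟨⟨hθ0, hθ1⟩, hM⟩, hq⟩ := hpP
  obtain ⟨θ, M⟩ := p
  simp only at hθ0 hθ1 hM hq
  refine ⟨θ, hθ0, M, hM, ?_⟩
  by_contra hne'
  set Dm := Pe X ε M - θ • M with hDm
  have hDP : Psd Dm := by
    refine ⟨?_, fun v => ?_⟩
    · rw [hDm, transpose_sub, (hM.1.Pe X hε.le).1, transpose_smul, hM.1.1]
    · rw [hDm, q_sub, q_smul]
      linarith [hq v]
  have hDt : 0 < Dm.trace := by
    refine lt_of_le_of_ne hDP.trace fun h => hne' ?_
    have := hDP.eq_zero h.symm
    rw [hDm, sub_eq_zero] at this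
    exact this
  set t' := (Pe X ε M).trace with ht'
  have ht'0 : 0 < t' := by
    rw [ht', tr_Pe, hM.2, mul_one]
    have := (hM.1.Ph X).trace
    positivity
  have hM' : (t'⁻¹ • Pe X ε M) ∈ Cs m := by
    refine ⟨(hM.1.Pe X hε.le).smul (by positivity), ?_⟩
    rw [trace_smul, smul_eq_mul, ← ht', inv_mul_cancel₀ ht'0.ne']
  set δ := t'⁻¹ * (ε * Dm.trace) / (Fintype.card m : ℝ) ^ 2 with hδ
  have hδ0 : 0 < δ := by positivity
  have hq' : ∀ v, (θ + δ) * q (t'⁻¹ • Pe X ε M) v ≤ q (Pe X ε (t'⁻¹ • Pe X ε M)) v := by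
    intro v
    have e1 : Pe X ε (t'⁻¹ • Pe X ε M) = t'⁻¹ • Pe X ε Dm + θ • (t'⁻¹ • Pe X ε M) := by
      have : Pe X ε Dm = Pe X ε (Pe X ε M) - θ • Pe X ε M := by
        rw [hDm, Pe_sub, Pe_smul]
      rw [this, Pe_smul, smul_sub, smul_comm θ t'⁻¹]
      abel
    have e2 : ε * Dm.trace * (v ⬝ᵥ v) ≤ q (Pe X ε Dm) v := by
      rw [q_Pe]
      have : 0 ≤ ∑ i, q Dm (X i *ᵥ v) := Finset.sum_nonneg fun i _ => hDP.2 _
      linarith
    have e3 := hM'.1.q_le v
    rw [hM'.2, mul_one] at e3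
    rw [e1, q_add, q_smul t'⁻¹ (Pe X ε Dm), q_smul θ (t'⁻¹ • Pe X ε M)]
    have e4 : δ * q (t'⁻¹ • Pe X ε M) v ≤ t'⁻¹ * q (Pe X ε Dm) v := by
      calc δ * q (t'⁻¹ • Pe X ε M) v ≤ δ * ((Fintype.card m : ℝ) ^ 2 * (v ⬝ᵥ v)) :=
            mul_le_mul_of_nonneg_left e3 hδ0.le
        _ = t'⁻¹ * (ε * Dm.trace * (v ⬝ᵥ v)) := by
            rw [hδ]
            field_simp
        _ ≤ _ := mul_le_mul_of_nonneg_left e2 (by positivity)
    linarith
  have hmem : (θ + δ, t'⁻¹ • Pe X ε M) ∈ P :=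
    ⟨⟨⟨by linarith, hθB _ _ hM' hq'⟩, hM'⟩, hq'⟩
  have := hmax hmem
  simp only [mem_ofPred_eq] at this
  linarith

/-- the Perron eigenvalue is at least `s` -/
theorem perron_ge {ε : ℝ} (hε : 0 < ε) {θ : ℝ} (hθ : 0 ≤ θ) {M : Matrix m m ℝ}
    (hM : M ∈ Cs m) (hPM : Pe X ε M = θ • M) {B : Matrix m m ℝ} {s : ℝ} (hBs : Bᵀ = B)
    (hB0 : B ≠ 0) (hB : Ph X B = s • B) : s ≤ θ := by
  by_contra hlt
  push Not at hlt
  have hs : 0 < s := lt_of_le_of_lt hθ hlt
  have hlow : ∀ v, ε * (v ⬝ᵥ v) ≤ θ * q M v := by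
    intro v
    rw [← q_smul, ← hPM, q_Pe, hM.2, mul_one]
    have : 0 ≤ ∑ i, q M (X i *ᵥ v) := Finset.sum_nonneg fun i _ => hM.1.2 _
    linarith
  set c := ∑ i, ∑ j, |B i j| with hc
  have hc0 : 0 ≤ c := by positivity
  have hstep : ∀ t : ℝ, 0 ≤ t → (∀ v, |q B v| ≤ t * q M v) → ∀ v, |q B v| ≤ (θ / s * t) * q M v := by
    intro t ht h v
    have h1 : s * q B v = ∑ i, q B (X i *ᵥ v) := by
      rw [← q_smul, ← hB, q_Ph]
    have h2 : s * |q B v| ≤ t * (θ * q M v) := by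
      calc s * |q B v| = |∑ i, q B (X i *ᵥ v)| := by rw [← h1, abs_mul, abs_of_pos hs]
        _ ≤ ∑ i, |q B (X i *ᵥ v)| := Finset.abs_sum_le_sum_abs _ _
        _ ≤ ∑ i, t * q M (X i *ᵥ v) := Finset.sum_le_sum fun i _ => h _
        _ = t * ∑ i, q M (X i *ᵥ v) := by rw [Finset.mul_sum]
        _ ≤ t * (θ * q M v) := by
            refine mul_le_mul_of_nonneg_left ?_ ht
            rw [← q_smul, ← hPM, q_Pe, hM.2, mul_one]
            have := mul_nonneg hε.le (dot_nonneg v)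
            linarith
    have h3 : (θ / s * t) * q M v = t * (θ * q M v) / s := by ring
    rw [h3, le_div_iff₀ hs]
    linarith
  have hall : ∀ k : ℕ, ∀ v, |q B v| ≤ ((θ / s) ^ k * (c * θ / ε)) * q M v := by
    intro k
    induction k with
    | zero =>
      intro v
      rw [pow_zero, one_mul]
      refine (abs_q_le B v).trans ?_
      have h1 : c * θ / ε * q M v = c * (θ * q M v / ε) := by ring
      rw [h1]
      refine mul_le_mul_of_nonneg_left ?_ hc0
      rw [le_div_iff₀ hε]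
      linarith [hlow v]
    | succ k ih =>
      intro v
      have h1 := hstep _ (by positivity) ih v
      have h2 : (θ / s) ^ (k + 1) * (c * θ / ε) = θ / s * ((θ / s) ^ k * (c * θ / ε)) := by ring
      rw [h2]
      exact h1
  have hz : ∀ v, q B v = 0 := by
    intro v
    have hlim : Filter.Tendsto (fun k : ℕ => ((θ / s) ^ k * (c * θ / ε)) * q M v) Filter.atTop
        (nhds ((0 * (c * θ / ε)) * q M v)) := by
      refine Filter.Tendsto.mul_const _ (Filter.Tendsto.mul_const _ ?_)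
      refine tendsto_pow_atTop_nhds_zero_of_lt_one (by positivity) ?_
      rw [div_lt_one hs]
      exact hlt
    rw [zero_mul, zero_mul] at hlim
    have := ge_of_tendsto' hlim (fun k => hall k v)
    exact abs_eq_zero.1 (le_antisymm this (abs_nonneg _))
  apply hB0
  have hP : Psd B := ⟨hBs, fun v => (hz v).ge⟩
  refine hP.eq_zero ?_
  unfold Matrix.trace
  refine Finset.sum_eq_zero fun i _ => ?_
  have := hz (Pi.single i 1)
  rwa [q_single] at this

/-- the matrix version -/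
theorem pf_mat {B : Matrix m m ℝ} {s : ℝ} (hBs : Bᵀ = B) (hB : Ph X B = s • B)
    (huniq : ∀ (M : Matrix m m ℝ) (θ : ℝ), s ≤ θ → Ph X M = θ • M → ∃ c : ℝ, M = c • B) :
    (∀ v, 0 ≤ q B v) ∨ ∀ v, q B v ≤ 0 := by
  by_cases hB0 : B = 0
  · left
    intro v
    rw [hB0]
    unfold q
    simp
  have hnem : Nonempty m := by
    by_contra h
    apply hB0
    ext i
    exact absurd ⟨i⟩ h
  obtain ⟨Bd, hBd⟩ := tr_bound X
  set B' := Bd + Fintype.card m with hB'
  set Z : Set (ℝ × ℝ × Matrix m m ℝ) := (Icc 0 1 ×ˢ (Icc (min s 0) B' ×ˢ Cs m)) ∩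
    {p | Pe X p.1 p.2.2 = p.2.1 • p.2.2 ∧ s ≤ p.2.1} with hZ
  have hZc : IsCompact Z := by
    refine (isCompact_Icc.prod (isCompact_Icc.prod compact_Cs)).inter_right ?_
    refine (isClosed_eq ?_ ?_).inter (isClosed_le continuous_const
      (continuous_fst.comp continuous_snd))
    · unfold Pe
      refine ((cont_Ph X).comp (continuous_snd.comp continuous_snd)).add ?_
      exact (continuous_fst.mul (cont_tr.comp (continuous_snd.comp continuous_snd))).smul
        continuous_const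
    · fun_prop
  have hcl : IsClosed (Prod.fst '' Z) := (hZc.image continuous_fst).isClosed
  have hsub : Ioc (0 : ℝ) 1 ⊆ Prod.fst '' Z := by
    intro ε hε
    obtain ⟨θ, hθ, M, hM, hPM⟩ := perron X hε.1
    have hsθ := perron_ge X hε.1 hθ hM hPM hBs hB0 hB
    have hθB : θ ≤ B' := by
      have h1 := congrArg Matrix.trace hPM
      rw [tr_Pe, trace_smul, hM.2, smul_eq_mul, mul_one, mul_one] at h1
      have h2 := hBd M hM
      have h3 : ε * (Fintype.card m : ℝ) ≤ Fintype.card m := by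
        have : (0 : ℝ) ≤ Fintype.card m := Nat.cast_nonneg _
        nlinarith [hε.2]
      rw [hB', ← h1]
      linarith
    exact ⟨(ε, θ, M), ⟨⟨⟨hε.1.le, hε.2⟩, ⟨⟨(min_le_right _ _).trans hθ, hθB⟩, hM⟩⟩, hPM, hsθ⟩, rfl⟩
  have h0 : (0 : ℝ) ∈ Prod.fst '' Z := by
    have h1 : (0 : ℝ) ∈ closure (Ioc (0 : ℝ) 1) := by
      rw [closure_Ioc (by norm_num)]
      exact ⟨le_rfl, zero_le_one⟩
    exact hcl.closure_subset_iff.2 hsub h1
  obtain ⟨⟨ε, θ, M⟩, ⟨⟨-, -, hM⟩, hPM, hsθ⟩, hε⟩ := h0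
  simp only at hε hPM hsθ hM
  subst hε
  have hPh : Ph X M = θ • M := by
    rw [← hPM]
    unfold Pe
    simp
  obtain ⟨c, hc⟩ := huniq M θ hsθ hPh
  have hc0 : c ≠ 0 := by
    rintro rfl
    rw [zero_smul] at hc
    have := hM.2
    rw [hc] at this
    simp at this
  have hq : ∀ v, q M v = c * q B v := fun v => by rw [hc, q_smul]
  rcases lt_or_gt_of_ne hc0 with h | h
  · right
    intro v
    have := hM.1.2 v
    rw [hq] at this
    nlinarith
  · left
    intro v
    have := hM.1.2 v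
    rw [hq] at this
    nlinarith

end mat

theorem T_PF : S_PF := by
  intro T _ _ _ b hb ι _ x Φ hΦ s κ hs _ _ huniq
  set β := finBasis ℝ T with hβ
  set L : (T →ₗ[ℝ] T →ₗ[ℝ] ℝ) ≃ₗ[ℝ] Matrix (Fin (finrank ℝ T)) (Fin (finrank ℝ T)) ℝ :=
    LinearMap.toMatrix₂ β β with hL
  set X : ι → Matrix (Fin (finrank ℝ T)) (Fin (finrank ℝ T)) ℝ :=
    fun i => LinearMap.toMatrix β β (x i) with hX
  have hΦm : ∀ g : T →ₗ[ℝ] T →ₗ[ℝ] ℝ, L (Φ g) = Ph X (L g) := by
    intro g
    have h1 : Φ g = ∑ i, g.compl₁₂ (x i) (x i) := by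
      ext u v
      rw [hΦ]
      simp
    rw [h1, map_sum]
    unfold Ph
    refine Finset.sum_congr rfl fun i _ => ?_
    ext u v
    simp only [hL, hX, LinearMap.toMatrix₂_apply, Matrix.mul_apply, transpose_apply,
      LinearMap.toMatrix_apply, LinearMap.compl₁₂_apply]
    have h1 : ∀ w, x i (β w) = ∑ k, β.repr (x i (β w)) k • β k := fun w => (β.sum_repr _).symm
    conv_lhs => rw [h1 u, h1 v]
    simp only [map_sum, LinearMap.sum_apply, map_smul, LinearMap.smul_apply, smul_eq_mul,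
      Finset.sum_mul, Finset.mul_sum]
    refine Finset.sum_congr rfl fun k _ => Finset.sum_congr rfl fun l _ => ?_
    ring
  have hBs : (L b)ᵀ = L b := by
    ext i j
    rw [transpose_apply, hL, LinearMap.toMatrix₂_apply, LinearMap.toMatrix₂_apply, hb]
  have hB : Ph X (L b) = s • L b := by
    rw [← hΦm, hs, map_smul]
  have hu : ∀ (M : Matrix (Fin (finrank ℝ T)) (Fin (finrank ℝ T)) ℝ) (θ : ℝ), s ≤ θ →
      Ph X M = θ • M → ∃ c : ℝ, M = c • L b := by
    intro M θ hθ hM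
    obtain ⟨c, hc⟩ := huniq (L.symm M) θ hθ (by
      apply L.injective
      rw [hΦm, LinearEquiv.apply_symm_apply, hM, map_smul, LinearEquiv.apply_symm_apply])
    refine ⟨c, ?_⟩
    rw [← map_smul, ← hc, LinearEquiv.apply_symm_apply]
  have hq : ∀ v : T, b v v = q (L b) (β.repr v) := by
    intro v
    have h1 := β.sum_repr v
    rw [q_eq]
    conv_lhs => rw [← h1]
    simp only [map_sum, LinearMap.sum_apply, map_smul, LinearMap.smul_apply, smul_eq_mul,
      hL, LinearMap.toMatrix₂_apply]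
    rw [Finset.sum_comm]
    refine Finset.sum_congr rfl fun i _ => ?_
    rw [Finset.mul_sum]
    refine Finset.sum_congr rfl fun j _ => ?_
    ring
  rcases pf_mat X hBs hB hu with h | h
  · left
    intro v
    rw [hq]
    exact h _
  · right
    intro v
    rw [hq]
    exact h _

end Pool.Agent.W358.DK
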