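import Pool.Agent.W516.K3.Defs

set_option autoImplicit false

namespace Pool.Agent.W358.DK

open Module Pool.Agent.W516.K3

section C11

variable {T : Type} [AddCommGroup T] [Module ℝ T]

theorem wdg_apply (b : T →ₗ[ℝ] T →ₗ[ℝ] ℝ) (u v t : T) :
    wdg b u v t = b v t • u - b u t • v := by
  simp [wdg]

/-- eigenvectors of a real matrix of size two with positive discriminant -/
theorem eig2 (a b c d : ℝ) (h : 0 < (a - d) ^ 2 + 4 * (b * c)) :
    ∃ l m v0 v1 w0 w1 : ℝ, l ≠ m ∧ v0 * w1 - v1 * w0 ≠ 0 ∧
      a * v0 + b * v1 = l * v0 ∧ c * v0 + d * v1 = l * v1 ∧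
      a * w0 + b * w1 = m * w0 ∧ c * w0 + d * w1 = m * w1 := by
  set s := √((a - d) ^ 2 + 4 * (b * c)) with hs
  have hs0 : 0 < s := Real.sqrt_pos.2 h
  have hs2 : s ^ 2 = (a - d) ^ 2 + 4 * (b * c) := Real.sq_sqrt h.le
  by_cases hb : b = 0
  · by_cases hc : c = 0
    · refine ⟨a, d, 1, 0, 0, 1, ?_, by norm_num, by simp, by simp [hc], by simp [hb], by simp⟩
      rintro rfl
      simp [hb] at h
    · refine ⟨(a + d + s) / 2, (a + d - s) / 2, (a + d + s) / 2 - d, c, (a + d - s) / 2 - d, c,
        fun he => by linarith, ?_, ?_, by ring, ?_, by ring⟩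
      · have : ((a + d + s) / 2 - d) * c - c * ((a + d - s) / 2 - d) = c * s := by ring
        rw [this]
        exact mul_ne_zero hc hs0.ne'
      · subst hb
        linear_combination (1 / 4) * hs2 * (-1)
      · subst hb
        linear_combination (1 / 4) * hs2 * (-1)
  · refine ⟨(a + d + s) / 2, (a + d - s) / 2, b, (a + d + s) / 2 - a, b, (a + d - s) / 2 - a,
      fun he => by linarith, ?_, by ring, ?_, by ring, ?_⟩
    · have : b * ((a + d - s) / 2 - a) - ((a + d + s) / 2 - a) * b = -(b * s) := by ring
      rw [this]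
      exact neg_ne_zero.2 (mul_ne_zero hb hs0.ne')
    · linear_combination (1 / 4) * hs2 * (-1)
    · linear_combination (1 / 4) * hs2 * (-1)

/-- the main step -/
theorem step [FiniteDimensional ℝ T] {b : T →ₗ[ℝ] T →ₗ[ℝ] ℝ} {g : Submodule ℝ (Module.End ℝ T)}
    (hG : Good b g) {e f e' f' : T} (hE : Hyp2 b e f e' f')
    (h : Module.End ℝ T) (hh : h = wdg b e f + wdg b e' f') (hg : h ∈ g)
    (han : ∀ t, h t = 0 → b t t = 0 → t = 0)
    (x : Module.End ℝ T) (hx : x ∈ g) (hxh : x * h = h * x) (l m : ℝ) (hlm : l ≠ m)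
    (hxe : x e = l • e) (hxe' : x e' = m • e') : wdg b e f ∈ g := by
  have hsy := hG.symm
  obtain ⟨e11, e22, e12, f11, f22, f12, ef12, ef21, ef11, ef22⟩ := hE
  have e21 : b e' e = 0 := by rw [hsy]; exact e12
  have f21 : b f' f = 0 := by rw [hsy]; exact f12
  have fe11 : b f e = 1 := by rw [hsy]; exact ef11
  have fe22 : b f' e' = 1 := by rw [hsy]; exact ef22
  have fe21 : b f' e = 0 := by rw [hsy]; exact ef12
  have fe12 : b f e' = 0 := by rw [hsy]; exact ef21
  have hsk := hG.skew x hx
  have hht : ∀ t, h t = b f t • e - b e t • f + (b f' t • e' - b e' t • f') := by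
    intro t
    rw [hh, LinearMap.add_apply, wdg_apply, wdg_apply]
  have hxht : ∀ t, x (h t) = h (x t) := fun t => by
    have := congrArg (fun y : Module.End ℝ T => y t) hxh
    simpa using this
  -- the action of x on f, f'
  have hhf : h f = -f := by rw [hht, f11, ef11, f21, ef21]; simp
  have hhf' : h f' = -f' := by rw [hht, f12, ef12, f22, ef22]; simp
  have hneg : ∀ t, h t = -t → t = b e t • f + b e' t • f' := by
    intro t ht
    have h1 : b f t = 0 := by
      have := congrArg (b f) (hht t)
      rw [ht] at this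
      simp only [map_neg, map_add, map_sub, map_smul, smul_eq_mul, fe11, f11, fe12, f12] at this
      linarith
    have h2 : b f' t = 0 := by
      have := congrArg (b f') (hht t)
      rw [ht] at this
      simp only [map_neg, map_add, map_sub, map_smul, smul_eq_mul, fe21, f21, fe22, f22] at this
      linarith
    have h3 := hht t
    rw [ht, h1, h2, zero_smul, zero_smul] at h3
    have : t = -(-t) := (neg_neg t).symm
    rw [this, h3]
    simp only [zero_sub, map_add, map_neg, map_smul, smul_eq_mul, ef11, ef12, ef21, ef22]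
    simp [add_comm]
  have hxf : x f = -(l • f) := by
    have h1 : h (x f) = -(x f) := by rw [← hxht, hhf, map_neg]
    rw [hneg _ h1]
    have h2 : b e (x f) = -l := by
      have := hsk e f
      rw [hxe, map_smul, LinearMap.smul_apply, ef11] at this
      simp only [smul_eq_mul] at this
      linarith
    have h3 : b e' (x f) = 0 := by
      have := hsk e' f
      rw [hxe', map_smul, LinearMap.smul_apply, ef21] at this
      simp only [smul_eq_mul] at this
      linarith
    rw [h2, h3]
    simp
  have hxf' : x f' = -(m • f') := by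
    have h1 : h (x f') = -(x f') := by rw [← hxht, hhf', map_neg]
    rw [hneg _ h1]
    have h2 : b e (x f') = 0 := by
      have := hsk e f'
      rw [hxe, map_smul, LinearMap.smul_apply, ef12] at this
      simp only [smul_eq_mul] at this
      linarith
    have h3 : b e' (x f') = -m := by
      have := hsk e' f'
      rw [hxe', map_smul, LinearMap.smul_apply, ef22] at this
      simp only [smul_eq_mul] at this
      linarith
    rw [h2, h3]
    simp
  set y : Module.End ℝ T := l • wdg b e f + m • wdg b e' f' with hy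
  set z : Module.End ℝ T := x - y with hz
  have hyt : ∀ t, y t = l • (b f t • e - b e t • f) + m • (b f' t • e' - b e' t • f') := by
    intro t
    rw [hy, LinearMap.add_apply, LinearMap.smul_apply, LinearMap.smul_apply, wdg_apply, wdg_apply]
  have hye : y e = l • e := by rw [hyt, fe11, e11, fe21, e21]; simp
  have hye' : y e' = m • e' := by rw [hyt, fe12, e12, fe22, e22]; simp
  have hyf : y f = -(l • f) := by rw [hyt, f11, ef11, f21, ef21]; simp
  have hyf' : y f' = -(m • f') := by rw [hyt, f12, ef12, f22, ef22]; simp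
  have hze : z e = 0 := by rw [hz, LinearMap.sub_apply, hxe, hye, sub_self]
  have hze' : z e' = 0 := by rw [hz, LinearMap.sub_apply, hxe', hye', sub_self]
  have hzf : z f = 0 := by rw [hz, LinearMap.sub_apply, hxf, hyf, sub_self]
  have hzf' : z f' = 0 := by rw [hz, LinearMap.sub_apply, hxf', hyf', sub_self]
  -- decomposition
  set pr : T → T := fun t => t - (b f t • e + b e t • f + b f' t • e' + b e' t • f') with hpr
  have hpr0 : ∀ t, b e (pr t) = 0 ∧ b f (pr t) = 0 ∧ b e' (pr t) = 0 ∧ b f' (pr t) = 0 := by
    intro t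
    simp only [hpr, map_sub, map_add, map_smul, smul_eq_mul, e11, e12, e21, e22, f11, f12, f21, f22,
      ef11, ef12, ef21, ef22, fe11, fe12, fe21, fe22]
    refine ⟨?_, ?_, ?_, ?_⟩ <;> ring
  have hk : ∀ t, (b e t = 0 ∧ b f t = 0 ∧ b e' t = 0 ∧ b f' t = 0) → y t = 0 ∧ h t = 0 := by
    rintro t ⟨k1, k2, k3, k4⟩
    rw [hyt, hht, k1, k2, k3, k4]
    simp
  have hk' : ∀ t, h t = 0 → (b e t = 0 ∧ b f t = 0 ∧ b e' t = 0 ∧ b f' t = 0) := by
    intro t ht
    have h0 := hht t
    rw [ht] at h0
    refine ⟨?_, ?_, ?_, ?_⟩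
    · have := congrArg (b e) h0
      simp only [map_zero, map_add, map_sub, map_smul, smul_eq_mul, e11, ef11, e12, ef12] at this
      linarith
    · have := congrArg (b f) h0
      simp only [map_zero, map_add, map_sub, map_smul, smul_eq_mul, fe11, f11, fe12, f12] at this
      linarith
    · have := congrArg (b e') h0
      simp only [map_zero, map_add, map_sub, map_smul, smul_eq_mul, e21, ef21, e22, ef22] at this
      linarith
    · have := congrArg (b f') h0
      simp only [map_zero, map_add, map_sub, map_smul, smul_eq_mul, fe21, f21, fe22, f22] at this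
      linarith
  have hzpr : ∀ t, z t = x (pr t) := by
    intro t
    have h1 : t = pr t + (b f t • e + b e t • f + b f' t • e' + b e' t • f') := by
      simp [hpr]
    have h2 : z t = z (pr t) := by
      conv_lhs => rw [h1]
      simp only [map_add, map_smul, hze, hze', hzf, hzf', smul_zero, add_zero]
    rw [h2, hz, LinearMap.sub_apply, (hk _ (hpr0 t)).1, sub_zero]
  have hz0 : ∀ t, h (z t) = 0 := by
    intro t
    rw [hzpr, ← hxht, (hk _ (hpr0 t)).2, map_zero]
  have hyz : y * z = 0 := by
    ext t
    simp only [Module.End.mul_apply, LinearMap.zero_apply]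
    exact (hk _ (hk' _ (hz0 t))).1
  have hzy : z * y = 0 := by
    ext t
    simp only [Module.End.mul_apply, LinearMap.zero_apply]
    rw [hyt]
    simp only [map_add, map_sub, map_smul, hze, hze', hzf, hzf', smul_zero, sub_zero, add_zero]
  have hH : IsHyp y := by
    unfold IsHyp
    rw [eq_top_iff]
    intro t _
    have h1 : t = pr t + (b f t • e + b e t • f + b f' t • e' + b e' t • f') := by
      simp [hpr]
    have hmem : ∀ (c : ℝ) (w : T), y w = c • w → w ∈ ⨆ μ : ℝ, Module.End.eigenspace y μ :=
      fun c w hw => Submodule.mem_iSup_of_mem c (Module.End.mem_eigenspace_iff.2 hw)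
    rw [h1]
    refine Submodule.add_mem _ (hmem 0 _ (by rw [(hk _ (hpr0 t)).1, zero_smul])) ?_
    refine Submodule.add_mem _ (Submodule.add_mem _ (Submodule.add_mem _ ?_ ?_) ?_) ?_
    · exact Submodule.smul_mem _ _ (hmem l e hye)
    · exact Submodule.smul_mem _ _ (hmem (-l) f (by rw [hyf, neg_smul]))
    · exact Submodule.smul_mem _ _ (hmem m e' hye')
    · exact Submodule.smul_mem _ _ (hmem (-m) f' (by rw [hyf', neg_smul]))
  have hysk : ∀ u v, b (y u) v + b u (y v) = 0 := by
    intro u v
    rw [hyt, hyt]
    simp only [map_add, map_sub, map_smul, smul_eq_mul, LinearMap.add_apply, LinearMap.sub_apply,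
      LinearMap.smul_apply]
    rw [hsy u e, hsy u f, hsy u e', hsy u f']
    ring
  have hzsk : ∀ u v, b (z u) v + b u (z v) = 0 := by
    intro u v
    have h1 := hsk u v
    have h2 := hysk u v
    rw [hz]
    simp only [LinearMap.sub_apply, map_sub]
    linarith
  have hzz : ∀ v, b (z v) v = 0 := by
    intro v
    have h1 := hzsk v v
    rw [hsy v (z v)] at h1
    linarith
  have hN : NoRe z := by
    intro a c ha v hv
    have h1 := congrArg (fun w => b w (z v)) hv
    simp only [map_add, map_sub, map_smul, LinearMap.add_apply, LinearMap.sub_apply,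
      LinearMap.smul_apply, smul_eq_mul, map_zero, LinearMap.zero_apply] at h1
    rw [hzz (z v), hsy v (z v), hzz v] at h1
    have h2 : b (z v) (z v) = 0 := by
      have h3 : (2 * a) * b (z v) (z v) = 0 := by linarith
      rcases mul_eq_zero.1 h3 with h4 | h4
      · exact absurd h4 (mul_ne_zero two_ne_zero ha)
      · exact h4
    have h3 := han _ (hz0 v) h2
    rw [h3, map_zero, smul_zero, sub_zero, zero_add] at hv
    rcases smul_eq_zero.1 hv with h4 | h4
    · exfalso
      have : 0 < a ^ 2 := by positivity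
      nlinarith [sq_nonneg c]
    · exact h4
  have hyg : y ∈ g := hG.hyp y z (by rw [hz]; simpa using hx) (by rw [hyz, hzy]) hH hN
  have h5 : (l - m) • wdg b e f = y - m • h := by
    rw [hy, hh, smul_add, sub_smul]
    abel
  have h6 : (l - m) • wdg b e f ∈ g := by
    rw [h5]
    exact g.sub_mem hyg (g.smul_mem _ hg)
  have h7 : wdg b e f = (l - m)⁻¹ • ((l - m) • wdg b e f) := by
    rw [smul_smul, inv_mul_cancel₀ (sub_ne_zero.2 hlm), one_smul]
  rw [h7]
  exact g.smul_mem _ h6

end C11

theorem T_C11 : S_DISC → S_JJ → S_C11 := by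
  intro hDISC hJJ T _ _ _ b g hG hdim e₁ f₁ e₂ f₂ hE hg
  by_contra hcon
  push Not at hcon
  have hsy := hG.symm
  have hE' := hE
  obtain ⟨e11, e22, e12, f11, f22, f12, ef12, ef21, ef11, ef22⟩ := hE
  have e21 : b e₂ e₁ = 0 := by rw [hsy]; exact e12
  have f21 : b f₂ f₁ = 0 := by rw [hsy]; exact f12
  have fe11 : b f₁ e₁ = 1 := by rw [hsy]; exact ef11
  have fe22 : b f₂ e₂ = 1 := by rw [hsy]; exact ef22
  have fe21 : b f₂ e₁ = 0 := by rw [hsy]; exact ef12
  have fe12 : b f₁ e₂ = 0 := by rw [hsy]; exact ef21
  set h : Module.End ℝ T := wdg b e₁ f₁ + wdg b e₂ f₂ with hh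
  have hht : ∀ t, h t = b f₁ t • e₁ - b e₁ t • f₁ + (b f₂ t • e₂ - b e₂ t • f₂) := by
    intro t
    rw [hh, LinearMap.add_apply, wdg_apply, wdg_apply]
  have he1 : h e₁ = e₁ := by rw [hht, fe11, e11, fe21, e21]; simp
  have he2 : h e₂ = e₂ := by rw [hht, fe12, e12, fe22, e22]; simp
  have hf1 : h f₁ = -f₁ := by rw [hht, f11, ef11, f21, ef21]; simp
  have hf2 : h f₂ = -f₂ := by rw [hht, f12, ef12, f22, ef22]; simp
  have h3 : h * h * h = h := by
    ext t
    simp only [Module.End.mul_apply]
    have h1 : h (h t) = b f₁ t • e₁ + b e₁ t • f₁ + (b f₂ t • e₂ + b e₂ t • f₂) := by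
      rw [hht t]
      simp only [map_add, map_sub, map_smul, he1, he2, hf1, hf2]
      simp only [smul_neg, sub_neg_eq_add]
    rw [h1]
    simp only [map_add, map_smul, he1, he2, hf1, hf2]
    rw [hht t]
    simp only [smul_neg]
    abel
  -- the kernel is anisotropic
  have hk' : ∀ t, h t = 0 → (b e₁ t = 0 ∧ b f₁ t = 0 ∧ b e₂ t = 0 ∧ b f₂ t = 0) := by
    intro t ht
    have h0 := hht t
    rw [ht] at h0
    refine ⟨?_, ?_, ?_, ?_⟩
    · have := congrArg (b e₁) h0
      simp only [map_zero, map_add, map_sub, map_smul, smul_eq_mul, e11, ef11, e12, ef12] at this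
      linarith
    · have := congrArg (b f₁) h0
      simp only [map_zero, map_add, map_sub, map_smul, smul_eq_mul, fe11, f11, fe12, f12] at this
      linarith
    · have := congrArg (b e₂) h0
      simp only [map_zero, map_add, map_sub, map_smul, smul_eq_mul, e21, ef21, e22, ef22] at this
      linarith
    · have := congrArg (b f₂) h0
      simp only [map_zero, map_add, map_sub, map_smul, smul_eq_mul, fe21, f21, fe22, f22] at this
      linarith
  have han : ∀ t, h t = 0 → b t t = 0 → t = 0 := by
    intro t ht htt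
    obtain ⟨k1, k2, k3, k4⟩ := hk' t ht
    by_contra ht0
    have hli : LinearIndependent ℝ ![e₁, e₂, t] := by
      rw [Fintype.linearIndependent_iff]
      intro c hc
      simp only [Fin.sum_univ_three, Matrix.cons_val_zero, Matrix.cons_val_one,
        Matrix.cons_val_two, Matrix.head_cons, Matrix.tail_cons, Matrix.cons_val] at hc
      have c0 : c 0 = 0 := by
        have := congrArg (b f₁) hc
        simpa [fe11, fe12, k2] using this
      have c1 : c 1 = 0 := by
        have := congrArg (b f₂) hc
        simpa [fe21, fe22, k4] using this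
      have c2 : c 2 = 0 := by
        rw [c0, c1, zero_smul, zero_smul, zero_add, zero_add] at hc
        rcases smul_eq_zero.1 hc with h | h
        · exact h
        · exact absurd h ht0
      intro i
      fin_cases i
      · exact c0
      · exact c1
      · exact c2
    have hiso : ∀ u ∈ Submodule.span ℝ (Set.range ![e₁, e₂, t]),
        ∀ v ∈ Submodule.span ℝ (Set.range ![e₁, e₂, t]), b u v = 0 := by
      have hb : ∀ i j : Fin 3, b (![e₁, e₂, t] i) (![e₁, e₂, t] j) = 0 := by
        intro i j
        have k1' : b t e₁ = 0 := by rw [hsy]; exact k1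
        have k3' : b t e₂ = 0 := by rw [hsy]; exact k3
        fin_cases i <;> fin_cases j <;> simp [e11, e12, e21, e22, k1, k3, k1', k3', htt]
      intro u hu v hv
      refine Submodule.span_induction (p := fun u _ => b u v = 0) ?_ (by simp)
        (fun x y _ _ hx hy => by rw [map_add, LinearMap.add_apply, hx, hy, add_zero])
        (fun a x _ hx => by rw [map_smul, LinearMap.smul_apply, hx, smul_zero]) hu
      rintro _ ⟨i, rfl⟩
      refine Submodule.span_induction (p := fun v _ => b (![e₁, e₂, t] i) v = 0) ?_ (by simp)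
        (fun x y _ _ hx hy => by rw [map_add, hx, hy, add_zero])
        (fun a x _ hx => by rw [map_smul, hx, smul_zero]) hv
      rintro _ ⟨j, rfl⟩
      exact hb i j
    have := hG.witt _ hiso
    rw [finrank_span_eq_card hli] at this
    simp at this
  have hker : ∃ t, t ≠ 0 ∧ h t = 0 := by
    by_contra hno
    push Not at hno
    set L : T →ₗ[ℝ] (Fin 4 → ℝ) := LinearMap.pi ![b e₁, b f₁, b e₂, b f₂] with hL
    have hinj : Function.Injective L := by
      rw [← LinearMap.ker_eq_bot, LinearMap.ker_eq_bot']
      intro t ht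
      by_contra ht0
      apply hno t ht0
      have k := fun i => congrFun ht i
      have k0 := k 0
      have k1 := k 1
      have k2 := k 2
      have k3 := k 3
      simp [hL] at k0 k1 k2 k3
      rw [hht, k0, k1, k2, k3]
      simp
    have := LinearMap.finrank_le_finrank_of_injective hinj
    rw [finrank_fin_fun] at this
    omega
  -- the eigenspace with eigenvalue one
  have hT1 : ∀ t, h t = t → t = b f₁ t • e₁ + b f₂ t • e₂ := by
    intro t ht
    have h1 : b e₁ t = 0 := by
      have := congrArg (b e₁) (hht t)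
      rw [ht] at this
      simp only [map_add, map_sub, map_smul, smul_eq_mul, e11, ef11, e12, ef12] at this
      linarith
    have h2 : b e₂ t = 0 := by
      have := congrArg (b e₂) (hht t)
      rw [ht] at this
      simp only [map_add, map_sub, map_smul, smul_eq_mul, e21, ef21, e22, ef22] at this
      linarith
    have h3 := hht t
    rw [ht, h1, h2, zero_smul, zero_smul, sub_zero, sub_zero] at h3
    exact h3
  -- the space of matrices
  set E : Fin 2 → T := ![e₁, e₂] with hEdef
  set Fv : Fin 2 → T := ![f₁, f₂] with hFdef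
  set mat : Module.End ℝ T →ₗ[ℝ] Matrix (Fin 2) (Fin 2) ℝ :=
    { toFun := fun x => Matrix.of fun i j => b (Fv i) (x (E j))
      map_add' := by
        intro x y
        ext i j
        simp
      map_smul' := by
        intro c x
        ext i j
        simp } with hmat
  set C : Submodule ℝ (Module.End ℝ T) :=
    { carrier := {x | x ∈ g ∧ x * h = h * x}
      add_mem' := by
        rintro x y ⟨h1, h2⟩ ⟨h3, h4⟩
        exact ⟨g.add_mem h1 h3,
          (add_mul x y h).trans ((congrArg₂ (· + ·) h2 h4).trans (mul_add h x y).symm)⟩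
      zero_mem' := ⟨g.zero_mem, by rw [zero_mul, mul_zero]⟩
      smul_mem' := by
        rintro c x ⟨h1, h2⟩
        exact ⟨g.smul_mem c h1, by rw [smul_mul_assoc, mul_smul_comm, h2]⟩ } with hC
  have hxE : ∀ x : Module.End ℝ T, x * h = h * x →
      x e₁ = mat x 0 0 • e₁ + mat x 1 0 • e₂ ∧ x e₂ = mat x 0 1 • e₁ + mat x 1 1 • e₂ := by
    intro x hx
    have hxt : ∀ t, x (h t) = h (x t) := fun t => by
      have := congrArg (fun y : Module.End ℝ T => y t) hx
      simpa using this
    constructor
    · have h1 : h (x e₁) = x e₁ := by rw [← hxt, he1]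
      have h2 := hT1 _ h1
      simpa [hmat, hEdef, hFdef] using h2
    · have h1 : h (x e₂) = x e₂ := by rw [← hxt, he2]
      have h2 := hT1 _ h1
      simpa [hmat, hEdef, hFdef] using h2
  obtain ⟨j, hj1, hj2⟩ := hDISC (C.map mat) (by
    rintro A ⟨x, ⟨hxg, hxh⟩, rfl⟩
    by_contra hpos
    push Not at hpos
    obtain ⟨l, m, v0, v1, w0, w1, hlm, hdet, q1, q2, q3, q4⟩ := eig2 _ _ _ _ hpos
    obtain ⟨x1, x2⟩ := hxE x hxh
    set d := v0 * w1 - v1 * w0 with hd
    set e := v0 • e₁ + v1 • e₂ with he
    set e' := w0 • e₁ + w1 • e₂ with he'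
    set f := (w1 / d) • f₁ - (w0 / d) • f₂ with hf
    set f' := -(v1 / d) • f₁ + (v0 / d) • f₂ with hf'
    have hHyp : Hyp2 b e f e' f' := by
      constructor <;>
        simp only [he, he', hf, hf', map_add, map_sub, map_neg, map_smul, LinearMap.add_apply,
          LinearMap.sub_apply, LinearMap.neg_apply, LinearMap.smul_apply, smul_eq_mul, e11, e12,
          e21, e22, f11, f12, f21, f22, ef11, ef12, ef21, ef22, neg_smul] <;>
        field_simp <;> (try rw [hd]) <;> ring
    have hhe : h = wdg b e f + wdg b e' f' := by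
      ext t
      rw [hht, LinearMap.add_apply, wdg_apply, wdg_apply]
      simp only [he, he', hf, hf', map_add, map_sub, map_neg, map_smul, LinearMap.add_apply,
          LinearMap.sub_apply, LinearMap.neg_apply, LinearMap.smul_apply, smul_eq_mul, neg_smul]
      have hd1 : v0 * (w1 / d) - v1 * (w0 / d) = 1 := by field_simp; rw [hd]
      match_scalars
      · linear_combination (- b f₁ t) * hd1
      · linear_combination (b e₁ t) * hd1
      · linear_combination (- b f₂ t) * hd1
      · linear_combination (b e₂ t) * hd1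
    have hres : x e = l • e := by
      rw [he, map_add, map_smul, map_smul, x1, x2]
      match_scalars
      · linear_combination q1
      · linear_combination q2
    have hres' : x e' = m • e' := by
      rw [he', map_add, map_smul, map_smul, x1, x2]
      match_scalars
      · linear_combination q3
      · linear_combination q4
    have := step hG hHyp h hhe hg han x hxg hxh l m hlm hres hres'
    exact hcon e f hHyp.e11 hHyp.f11 hHyp.ef11 this)
  -- the endomorphism
  set J0 : Module.End ℝ T := (b f₁).smulRight (j 0 0 • e₁ + j 1 0 • e₂) +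
    (b f₂).smulRight (j 0 1 • e₁ + j 1 1 • e₂) with hJ0
  have hJt : ∀ t, J0 t = b f₁ t • (j 0 0 • e₁ + j 1 0 • e₂) + b f₂ t • (j 0 1 • e₁ + j 1 1 • e₂) := by
    intro t
    rw [hJ0]
    simp
  obtain ⟨J, hJ1, hJ2⟩ := hJJ T b g hG h hg h3 hker han J0 (by
    intro v _
    rw [hJt]
    simp only [map_add, map_smul, he1, he2]) (by
    intro x hx hxh v hv
    obtain ⟨x1, x2⟩ := hxE x hxh
    have hv' := hT1 v hv
    have hcom := hj1 (mat x) ⟨x, ⟨hx, hxh⟩, rfl⟩
    have c00 := congrFun (congrFun hcom 0) 0
    have c01 := congrFun (congrFun hcom 0) 1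
    have c10 := congrFun (congrFun hcom 1) 0
    have c11 := congrFun (congrFun hcom 1) 1
    simp only [Matrix.mul_apply, Fin.sum_univ_two] at c00 c01 c10 c11
    rw [hJt, hJt]
    have hxv : x v = b f₁ v • (mat x 0 0 • e₁ + mat x 1 0 • e₂) +
        b f₂ v • (mat x 0 1 • e₁ + mat x 1 1 • e₂) := by
      conv_lhs => rw [hv']
      rw [map_add, map_smul, map_smul, x1, x2]
    rw [hxv]
    simp only [map_add, map_smul, x1, x2, smul_eq_mul, fe11, fe12, fe21, fe22]
    match_scalars
    · linear_combination (b f₁ v) * c00 + (b f₂ v) * c01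
    · linear_combination (b f₁ v) * c10 + (b f₂ v) * c11)
  obtain ⟨c, hc⟩ := hG.comm J (fun x hx => hJ1 x hx)
  apply hj2 c
  have k1 : c • e₁ = j 0 0 • e₁ + j 1 0 • e₂ := by
    have := hJ2 e₁ he1
    rw [hc, hJt, fe11, fe21] at this
    simpa using this
  have k2 : c • e₂ = j 0 1 • e₁ + j 1 1 • e₂ := by
    have := hJ2 e₂ he2
    rw [hc, hJt, fe12, fe22] at this
    simpa using this
  have a1 := congrArg (b f₁) k1
  have a2 := congrArg (b f₂) k1
  have a3 := congrArg (b f₁) k2
  have a4 := congrArg (b f₂) k2
  simp only [map_add, map_smul, smul_eq_mul, fe11, fe12, fe21, fe22, mul_zero, mul_one, add_zero,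
    zero_add] at a1 a2 a3 a4
  ext i k
  have hone : ∀ i k : Fin 2, (c • (1 : Matrix (Fin 2) (Fin 2) ℝ)) i k = if i = k then c else 0 := by
    intro i k
    simp [Matrix.one_apply]
  rw [hone]
  fin_cases i <;> fin_cases k
  · simpa using a1.symm
  · simpa using a3.symm
  · simpa using a2.symm
  · simpa using a4.symm

end Pool.Agent.W358.DK
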