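import Pool.Agent.W516.K3.Defs3

set_option autoImplicit false

namespace Pool.Agent.W358.DK

open Pool.Agent.W516.K3

theorem mixed_upd {k T : Type} [Field k] [AddCommGroup T] [Module k T] {c : ℕ} {κ : Type}
    [Fintype κ] [DecidableEq κ] (A : Finset κ) [DecidableEq {l : κ // l ∉ A}] (j : κ → Fin c) (t : {l : κ // l ∉ A} → T)
    (l : {l : κ // l ∉ A}) (x : T) :
    mixed (k := k) A j (Function.update t l x) =
      Function.update (mixed (k := k) A j t) l.1 (0, x) := by
  funext l'
  by_cases h : l' = l.1
  · subst h
    simp [mixed, l.2]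
  · rw [Function.update_of_ne h]
    unfold mixed
    split_ifs with h1
    · rfl
    · rw [Function.update_of_ne]
      intro h2
      exact h (congrArg Subtype.val h2)

theorem T_PART : S_PART := by
  intro k T _ _ _ c κ _ _ φ A j
  refine ⟨⟨fun t => φ (mixed A j t), ?_, ?_⟩, fun t => rfl⟩
  · intro _ t l x y
    rw [mixed_upd, mixed_upd, mixed_upd]
    have : ((0, x + y) : (Fin c → k) × T) = (0, x) + (0, y) := by simp
    rw [this, φ.map_update_add]
  · intro _ t l a x
    rw [mixed_upd, mixed_upd]
    have : ((0, a • x) : (Fin c → k) × T) = a • (0, x) := by simp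
    rw [this, φ.map_update_smul]

end Pool.Agent.W358.DK
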