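import Pool.Agent.W516.K3.Defs

set_option autoImplicit false

namespace Pool.Agent.W358.DK

open Module Polynomial Pool.Agent.W516.K3

/-- the quadratic polynomial of `X - f` -/
noncomputable def Qp (f : ℝ[X]) (a c : ℝ) : ℝ[X] :=
  (X - f) ^ 2 - C (2 * a) * (X - f) + C (a ^ 2 + c ^ 2)

theorem coprime_quad (a0 c0 a c : ℝ) (ha : a ≠ 0) :
    IsCoprime (Qp (C a0) a c) ((X - C a0) ^ 2 + C (c0 ^ 2)) := by
  set ρ : ℝ := (a ^ 2 + c ^ 2 - c0 ^ 2) / (2 * a) with hρ
  have h2a : 2 * a ≠ 0 := mul_ne_zero two_ne_zero ha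
  have hρ' : 2 * a * ρ = a ^ 2 + c ^ 2 - c0 ^ 2 := by
    rw [hρ]
    field_simp
  have hδ : ρ ^ 2 + c0 ^ 2 ≠ 0 := by
    intro h
    have h1 : ρ ^ 2 = 0 := by nlinarith [sq_nonneg ρ, sq_nonneg c0]
    have h2 : c0 ^ 2 = 0 := by nlinarith [sq_nonneg ρ, sq_nonneg c0]
    have h3 : ρ = 0 := by simpa using h1
    rw [h3, mul_zero, h2] at hρ'
    have : 0 < a ^ 2 := by positivity
    nlinarith [sq_nonneg c]
  set δ := ρ ^ 2 + c0 ^ 2 with hδd
  have e1 : (C (2 * a) : ℝ[X]) * C ρ = C (a ^ 2 + c ^ 2) - C (c0 ^ 2) := by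
    rw [← C_mul, hρ', ← C_sub]
  have e2 : (C (1 / (2 * a * δ)) : ℝ[X]) * C (2 * a) = C (1 / δ) := by
    rw [← C_mul]
    congr 1
    field_simp
  have e3 : (C (1 / δ) : ℝ[X]) * (C ρ ^ 2 + C (c0 ^ 2)) = 1 := by
    rw [← C_pow, ← C_add, ← C_mul, ← hδd, one_div, inv_mul_cancel₀ hδ, C_1]
  refine ⟨C (1 / (2 * a * δ)) * ((X - C a0) + C ρ),
    C (1 / δ) - C (1 / (2 * a * δ)) * ((X - C a0) + C ρ), ?_⟩
  unfold Qp
  linear_combination e3 - (X - C a0 + C ρ) * C (1 / (2 * a * δ)) * e1 +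
    (-(X - C a0 + C ρ) * (X - C a0 - C ρ)) * e2

theorem irred_dvd {q : ℝ[X]} (hq : Irreducible q) :
    ∃ a0 c0 : ℝ, q ∣ (X - C a0) ^ 2 + C (c0 ^ 2) := by
  obtain ⟨ζ, hζ⟩ := IsAlgClosed.exists_aeval_eq_zero ℂ q (degree_pos_of_irreducible hq).ne'
  refine ⟨ζ.re, ζ.im, ?_⟩
  have hint : IsIntegral ℝ ζ := Algebra.IsIntegral.isIntegral ζ
  have h1 : minpoly ℝ ζ ∣ q := minpoly.dvd ℝ ζ hζ
  have h2 : Associated (minpoly ℝ ζ) q := (minpoly.irreducible hint).associated_of_dvd hq h1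
  refine h2.symm.dvd.trans (minpoly.dvd ℝ ζ ?_)
  simp only [map_add, map_pow, map_sub, aeval_X, aeval_C]
  have h3 : ζ - (algebraMap ℝ ℂ) ζ.re = ζ.im * Complex.I := by
    apply Complex.ext <;> simp
  rw [h3, mul_pow, Complex.I_sq]
  simp

variable {T : Type} [AddCommGroup T] [Module ℝ T]

/-- agreement on the kernel -/
theorem aeval_congr {x : Module.End ℝ T} {p f f' : ℝ[X]} (h : p ∣ f - f') {v : T}
    (hv : aeval x p v = 0) : aeval x f v = aeval x f' v := by
  obtain ⟨w, hw⟩ := h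
  have h1 : f = f' + w * p := by rw [mul_comm w p, ← hw]; ring
  rw [h1, map_add, map_mul, LinearMap.add_apply, Module.End.mul_apply, hv, map_zero, add_zero]

theorem main_poly (x : Module.End ℝ T) (p : ℝ[X]) : p ≠ 0 → ∃ f : ℝ[X],
    (LinearMap.ker (aeval x p) ≤
      ⨆ μ : ℝ, Module.End.eigenspace (aeval x f) μ ⊓ LinearMap.ker (aeval x p)) ∧
    ∀ a c : ℝ, a ≠ 0 → ∀ v ∈ LinearMap.ker (aeval x p), aeval x (Qp f a c) v = 0 → v = 0 := by
  induction p using UniqueFactorizationMonoid.induction_on_coprime with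
  | h0 => intro h; exact absurd rfl h
  | h1 hu =>
    rename_i p
    intro _
    have hk : ∀ v ∈ LinearMap.ker (aeval x p), v = 0 := by
      intro v hv
      rw [LinearMap.mem_ker] at hv
      obtain ⟨u, hu'⟩ := hu.exists_left_inv
      have : aeval x (u * p) v = v := by rw [hu']; simp
      rw [map_mul, Module.End.mul_apply, hv, map_zero] at this
      exact this.symm
    refine ⟨0, ?_, fun a c _ v hv _ => hk v hv⟩
    intro v hv
    rw [hk v hv]
    exact Submodule.zero_mem _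
  | hpr i hp =>
    rename_i q
    intro _
    obtain ⟨a0, c0, hd⟩ := irred_dvd hp.irreducible
    refine ⟨C a0, ?_, ?_⟩
    · refine le_trans ?_ (le_iSup _ a0)
      refine le_inf ?_ le_rfl
      intro v _
      rw [Module.End.mem_eigenspace_iff, aeval_C]
      rfl
    · intro a c ha v hv hQ
      have hco : IsCoprime (Qp (C a0) a c) (q ^ i) :=
        ((coprime_quad a0 c0 a c ha).of_isCoprime_of_dvd_right hd).pow_right
      obtain ⟨u, w, huw⟩ := hco
      have h1 : aeval x (u * Qp (C a0) a c + w * q ^ i) v = v := by rw [huw]; simp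
      rw [map_add, map_mul, map_mul, LinearMap.add_apply, Module.End.mul_apply,
        Module.End.mul_apply, hQ, LinearMap.mem_ker.1 hv, map_zero, map_zero, add_zero] at h1
      exact h1.symm
  | hcp hrel ih1 ih2 =>
    rename_i p1 p2
    intro hne
    obtain ⟨f1, hf1, hn1⟩ := ih1 (left_ne_zero_of_mul hne)
    obtain ⟨f2, hf2, hn2⟩ := ih2 (right_ne_zero_of_mul hne)
    have hco : IsCoprime p1 p2 := isRelPrime_iff_isCoprime.1 hrel
    have hco' := hco
    obtain ⟨e1, e2, he⟩ := hco'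
    set f : ℝ[X] := f1 * (e2 * p2) + f2 * (e1 * p1) with hf
    have hd1 : p1 ∣ f - f1 := ⟨(f2 - f1) * e1, by
      rw [hf]; linear_combination f1 * he⟩
    have hd2 : p2 ∣ f - f2 := ⟨(f1 - f2) * e2, by
      rw [hf]; linear_combination f2 * he⟩
    have hQd : ∀ (p g : ℝ[X]) (a c : ℝ), p ∣ f - g → p ∣ Qp f a c - Qp g a c := by
      intro p g a c hd
      have : Qp f a c - Qp g a c = (f - g) * (-(X - f) - (X - g) + C (2 * a)) := by
        unfold Qp
        ring
      rw [this]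
      exact hd.mul_right _
    have hsup : LinearMap.ker (aeval x p1) ⊔ LinearMap.ker (aeval x p2) =
        LinearMap.ker (aeval x (p1 * p2)) := Polynomial.sup_ker_aeval_eq_ker_aeval_mul_of_coprime x hco
    have hdis : Disjoint (LinearMap.ker (aeval x p1)) (LinearMap.ker (aeval x p2)) :=
      Polynomial.disjoint_ker_aeval_of_isCoprime x hco
    have hst : ∀ (p g : ℝ[X]) (v : T), v ∈ LinearMap.ker (aeval x p) →
        aeval x g v ∈ LinearMap.ker (aeval x p) := by
      intro p g v hv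
      rw [LinearMap.mem_ker] at hv ⊢
      rw [← Module.End.mul_apply, ← map_mul, mul_comm, map_mul, Module.End.mul_apply, hv, map_zero]
    refine ⟨f, ?_, ?_⟩
    · rw [← hsup]
      have key : ∀ (p g : ℝ[X]), p ∣ f - g →
          (LinearMap.ker (aeval x p) ≤ LinearMap.ker (aeval x p1) ⊔ LinearMap.ker (aeval x p2)) →
          (LinearMap.ker (aeval x p) ≤
            ⨆ μ : ℝ, Module.End.eigenspace (aeval x g) μ ⊓ LinearMap.ker (aeval x p)) →
          LinearMap.ker (aeval x p) ≤ ⨆ μ : ℝ, Module.End.eigenspace (aeval x f) μ ⊓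
            (LinearMap.ker (aeval x p1) ⊔ LinearMap.ker (aeval x p2)) := by
        intro p g hd hle hg
        refine hg.trans (iSup_mono fun μ => ?_)
        rintro v ⟨hv1, hv2⟩
        refine ⟨?_, hle hv2⟩
        have hv1' := Module.End.mem_eigenspace_iff.1 hv1
        change v ∈ Module.End.eigenspace (aeval x f) μ
        rw [Module.End.mem_eigenspace_iff, aeval_congr hd (LinearMap.mem_ker.1 hv2), hv1']
      exact sup_le (key p1 f1 hd1 le_sup_left hf1) (key p2 f2 hd2 le_sup_right hf2)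
    · intro a c ha v hv hQ
      rw [← hsup] at hv
      obtain ⟨v1, hv1, v2, hv2, rfl⟩ := Submodule.mem_sup.1 hv
      rw [map_add] at hQ
      have h1 : aeval x (Qp f a c) v1 ∈ LinearMap.ker (aeval x p1) := hst _ _ _ hv1
      have h2 : aeval x (Qp f a c) v2 ∈ LinearMap.ker (aeval x p2) := hst _ _ _ hv2
      have h3 : aeval x (Qp f a c) v1 = - aeval x (Qp f a c) v2 := eq_neg_of_add_eq_zero_left hQ
      have h4 : aeval x (Qp f a c) v1 = 0 := by
        refine Submodule.disjoint_def.1 hdis _ h1 ?_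
        rw [h3]
        exact Submodule.neg_mem _ h2
      have h5 : aeval x (Qp f a c) v2 = 0 := by
        rw [h4, zero_add] at hQ
        exact hQ
      rw [aeval_congr (hQd p1 f1 a c hd1) (LinearMap.mem_ker.1 hv1)] at h4
      rw [aeval_congr (hQd p2 f2 a c hd2) (LinearMap.mem_ker.1 hv2)] at h5
      rw [hn1 a c ha v1 hv1 h4, hn2 a c ha v2 hv2 h5, add_zero]

theorem T_SPLIT : S_SPLIT := by
  intro T _ _ _ x
  have hint : IsIntegral ℝ x := Algebra.IsIntegral.isIntegral x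
  obtain ⟨f, hf, hn⟩ := main_poly x (minpoly ℝ x) (minpoly.ne_zero hint)
  have hker : LinearMap.ker (aeval x (minpoly ℝ x)) = ⊤ := by
    rw [minpoly.aeval]
    exact LinearMap.ker_zero
  rw [hker] at hf hn
  refine ⟨aeval x f, aeval x (X - f), ?_, ?_, ?_, ?_⟩
  · rw [← map_add]
    simp
  · rw [← map_mul, ← map_mul, mul_comm]
  · unfold IsHyp
    rw [eq_top_iff]
    simpa using hf
  · intro a c ha v hv
    refine hn a c ha v trivial ?_
    unfold Qp
    rw [map_add, map_sub, map_mul, map_pow, aeval_C, aeval_C, pow_two]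
    exact hv

end Pool.Agent.W358.DK
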